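import Pool.Agent.helper21.OE.SpecA

/-!
# Project OE, row DEN: denominators
-/

namespace Pool.Agent.OE

open MvPolynomial Matrix

/-- a function whose image under an injective homomorphism is a modular symbol is one -/
theorem DEN_descend {d t : ℤ} {A B : Type} [CommRing A] [CommRing B] (hACB : ACB_stmt)
    (f : Oz d t →+* A) (ρ : A →+* B) (hρ : Function.Injective ρ) (k N : ℕ) (χ : Oz d t → A)
    (φ : Sy d t A) (ψ : Sy d t B) (h : IsSym (ρ.comp f) k N (fun x => ρ (χ x)) ψ)
    (hφ : ∀ u v, map ρ (φ u v) = ψ u v) : IsSym f k N χ φ := by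
  have inj : Function.Injective (map ρ : Pol A →+* Pol B) := map_injective ρ hρ
  refine ⟨fun v => ?_, fun u => ?_, fun u v w hu hv hw => ?_, fun c u v hc => ?_,
    fun c u v hc => ?_, fun u v => ⟨?_, ?_⟩, fun γ u v hγ => ?_⟩
  · apply inj
    rw [hφ, h.zero_left, map_zero]
  · apply inj
    rw [hφ, h.zero_right, map_zero]
  · apply inj
    rw [map_add, hφ, hφ, hφ, h.add u v w hu hv hw]
  · apply inj
    rw [hφ, hφ, h.smul_left c u v hc]
  · apply inj
    rw [hφ, hφ, h.smul_right c u v hc]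
  · intro d hd
    apply (h.hom u v).1
    rw [← hφ, coeff_map]
    intro h0
    exact hd (hρ (by rw [h0, map_zero]))
  · intro d hd
    apply (h.hom u v).2
    rw [← hφ, coeff_map]
    intro h0
    exact hd (hρ (by rw [h0, map_zero]))
  · apply inj
    rw [hφ, h.equiv γ u v hγ, smul_eq_C_mul, smul_eq_C_mul, map_mul, map_C, hACB, hφ]

/-- finitely many polynomials over the fraction field have a common denominator -/
theorem DEN_clear {R L ι : Type} [CommRing R] [IsDomain R] [Field L] [Algebra R L]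
    [IsFractionRing R L] (F : Finset ι) (P : ι → Pol L) : ∃ s : R, s ≠ 0 ∧ ∀ i ∈ F,
    algebraMap R L s • P i ∈ (map (algebraMap R L) : Pol R →+* Pol L).range := by
  classical
  obtain ⟨b, hb⟩ := IsLocalization.exist_integer_multiples_of_finset (nonZeroDivisors R)
    (F.biUnion fun i => (P i).support.image fun d => coeff d (P i) : Finset L)
  refine ⟨b, nonZeroDivisors.ne_zero b.2, fun i hi => ?_⟩
  have key : ∀ d, ∃ a : R, algebraMap R L a = algebraMap R L b * coeff d (P i) := by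
    intro d
    by_cases hd : coeff d (P i) = 0
    · exact ⟨0, by rw [hd, map_zero, mul_zero]⟩
    · obtain ⟨a, ha⟩ := hb (coeff d (P i)) (Finset.mem_biUnion.mpr ⟨i, hi,
        Finset.mem_image.mpr ⟨d, mem_support_iff.mpr hd, rfl⟩⟩)
      exact ⟨a, by rw [ha, Algebra.smul_def]⟩
  choose a ha using key
  refine ⟨∑ d ∈ (P i).support, monomial d (a d), ?_⟩
  rw [map_sum]
  conv_rhs => rw [(P i).as_sum, Finset.smul_sum]
  refine Finset.sum_congr rfl fun d _ => ?_
  rw [map_monomial, ha, smul_monomial, smul_eq_mul]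

theorem DEN (hFIX : FIX_stmt) (hMAN : MAN_stmt) (hACB : ACB_stmt) : DEN_stmt := by
  intro d t ht R L _ _ _ _ _ f k N χ hN φ hφ
  obtain ⟨F, hF⟩ := hFIX d t N hN
  obtain ⟨s, hs, hsF⟩ := DEN_clear (R := R) (L := L) F
    (fun δ => φ (δ.val *ᵥ ![1, 0]) (δ.val *ᵥ ![0, 1]))
  have hψ : IsSym ((algebraMap R L).comp f) k N (fun x => algebraMap R L (χ x))
      (algebraMap R L s • φ) :=
    (Sym ((algebraMap R L).comp f) k N (fun x => algebraMap R L (χ x))).smul_mem
      (algebraMap R L s) hφ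
  set ψ : Sy d t L := algebraMap R L s • φ with hψd
  have hcus : IsCus ψ := ⟨hψ.zero_left, hψ.zero_right, hψ.add, hψ.smul_left, hψ.smul_right⟩
  have hall : ∀ u v, ψ u v ∈ (map (algebraMap R L) : Pol R →+* Pol L).range.toAddSubgroup := by
    refine hMAN d t ht ψ hcus _ fun γ => ?_
    obtain ⟨δ, hδ, h, hh, rfl⟩ := hF γ
    obtain ⟨Q, hQ⟩ := hsF δ hδ
    have e : ∀ v : Vec d t, (h * δ).val *ᵥ v = h.val *ᵥ (δ.val *ᵥ v) := by
      intro v
      rw [Matrix.mulVec_mulVec]
      rfl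
    rw [e, e, hψ.equiv h _ _ hh]
    refine ⟨χ (h.val 1 1) • act f h.val Q, ?_⟩
    have hQ' : map (algebraMap R L) Q = ψ (δ.val *ᵥ ![1, 0]) (δ.val *ᵥ ![0, 1]) := hQ
    rw [smul_eq_C_mul, map_mul, map_C, hACB, hQ', smul_eq_C_mul]
  choose φ' hφ' using hall
  exact ⟨s, φ', hs, DEN_descend hACB f (algebraMap R L) (IsFractionRing.injective R L) k N χ φ' ψ
    hψ hφ', hφ'⟩

end Pool.Agent.OE
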